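import Pool.Agent.Lib.MP_634427_lc.Deep.Search

/-!
# One of the collections of `searchD` is nearly right
-/

namespace Pool.Agent.Lib.MP_634427_lc.KNo

/-- An average. -/
lemma exists_avg (L : List Word) (f g : Word → ℕ) {a b n : ℕ} (hn : 0 < n)
    (hf : n ≤ a * (L.map f).sum) (hg : (L.map g).sum ≤ b) : ∃ s ∈ L, n * g s ≤ a * b * f s := by
  by_contra hcon
  push Not at hcon
  have h1 : ∀ L' : List Word, (∀ s ∈ L', a * b * f s < n * g s) →
      a * b * (L'.map f).sum + L'.length ≤ n * (L'.map g).sum := by
    intro L' h
    induction L' with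
    | nil => simp
    | cons s L' ih =>
      have h2 := ih fun t ht => h t (List.mem_cons_of_mem _ ht)
      have h3 := h s List.mem_cons_self
      rw [List.map_cons, List.map_cons, List.sum_cons, List.sum_cons, List.length_cons,
        Nat.mul_add, Nat.mul_add]
      omega
  have h2 := h1 L hcon
  have h3 : n * (L.map g).sum ≤ n * b := Nat.mul_le_mul_left _ hg
  have h4 : n * b ≤ a * b * (L.map f).sum := by
    calc n * b ≤ a * (L.map f).sum * b := Nat.mul_le_mul_right _ hf
      _ = _ := by ring
  have h5 : L = [] := List.length_eq_zero_iff.1 (by omega)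
  subst h5
  simp at hf
  omega

lemma length_le_filters (U : List Item) (p1 p2 p3 p4 : Item → Bool)
    (h : ∀ e ∈ U, p1 e = true ∨ p2 e = true ∨ p3 e = true ∨ p4 e = true) :
    U.length ≤ (U.filter p1).length + (U.filter p2).length + (U.filter p3).length +
      (U.filter p4).length := by
  have key : ∀ (p : Item → Bool) (e : Item) (U : List Item),
      ((e :: U).filter p).length = (bif p e then 1 else 0) + (U.filter p).length := by
    intro p e U
    rw [List.filter_cons]
    cases p e <;> simp [Nat.add_comm]
  induction U with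
  | nil => simp
  | cons e U ih =>
    have h1 := ih fun e' he' => h e' (List.mem_cons_of_mem _ he')
    have h2 := h e List.mem_cons_self
    rw [key, key, key, key, List.length_cons]
    have h3 : 1 ≤ (bif p1 e then 1 else 0) + (bif p2 e then 1 else 0) + (bif p3 e then 1 else 0) +
        (bif p4 e then 1 else 0) := by
      rcases h2 with h2 | h2 | h2 | h2 <;> rw [h2, cond_true] <;> omega
    omega

section correct

variable {next : Word → List Bool → Option Word} {ℓ : ℕ} {S : Set Word}

/-- The invariant of a state from which `j` turns are still possible. -/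
def OkD (next : Word → List Bool → Option Word) (S : Set Word) (R : List Word)
    (k E A D C j : ℕ) (x : St) : Prop :=
  (∀ e ∈ x.2.2, e.1 ∈ R) ∧ 0 < x.2.2.length ∧
  ((x.1 = true ∧ E * bad next S x.2.2 ≤ x.2.2.length ∧
      (∀ e ∈ x.2.2, Good next S e → next e.1 e.2 = none) ∧ R.length ≤ C * x.2.2.length) ∨
    (x.1 = false ∧ x.2.1.Nodup ∧ (∀ s ∈ x.2.1, s ∈ S ∧ s ∈ Rel next S R) ∧
      E * A ^ j * bad next S x.2.2 ≤ x.2.2.length ∧
      (∀ e ∈ x.2.2, Good next S e → free next e = false ∧ k ≤ j + turns next e) ∧
      R.length * D ^ j ≤ C * x.2.2.length))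

lemma pend_filter_sum (L : List Word) (hL : L.Nodup) (U : List Item) :
    (L.map fun s => bad next S (pend next s U)).sum ≤ bad next S U := by
  classical
  unfold bad
  refine le_trans (le_of_eq ?_) (sum_pend_le (next := next) L hL
    (U.filter fun e => decide (¬ Good next S e)))
  congr 1
  refine List.map_congr_left fun s _ => ?_
  unfold pend
  rw [List.filter_filter, List.filter_filter]
  congr 2
  funext e
  rw [Bool.and_comm]

/-- One turn. -/
theorem exists_stepD {R : List Word} {q k P θ θb E C : ℕ} (hred : RedT next S R q k)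
    (hℓ : ∀ r ∈ R, ∀ tr s, Good next S (r, tr) → next r tr = some s → s.length ≤ ℓ)
    (hP : 0 < P) (hθb : 2 * (q * (ℓ + 1)) ≤ θb) (hθb2 : 2 ≤ θb) (hE : 1 ≤ E)
    (hS : ∀ L : List Word, L.Nodup → (∀ s ∈ L, s ∈ S ∧ s ∈ Rel next S R) → L.length < P)
    (j : ℕ) (hθ : E * (8 * P * θb) ^ (j + 1) ≤ θ) (x : St)
    (hx : OkD next S R k E (8 * P * θb) (θ * θb) C (j + 1) x) :
    ∃ y ∈ stepD next ℓ q P θ θb x, OkD next S R k E (8 * P * θb) (θ * θb) C j y := by
  classical
  obtain ⟨fl, T, G⟩ := x
  cases fl
  swap
  · refine ⟨(true, T, G), by simp [stepD], ?_⟩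
    obtain ⟨h1, h2, h3⟩ := hx
    refine ⟨h1, h2, ?_⟩
    rcases h3 with h3 | h3
    · exact Or.inl h3
    · exact absurd h3.1 (by simp)
  obtain ⟨hG, hpos, hx⟩ := hx
  rcases hx with hx | hx
  · exact absurd hx.1 (by simp)
  obtain ⟨-, hTn, hT, hbad, hk, hsize⟩ := hx
  simp only at hG hpos hTn hT hbad hk hsize
  obtain ⟨n, hn⟩ : ∃ n, n = G.length := ⟨_, rfl⟩
  obtain ⟨b, hb⟩ : ∃ b, b = bad next S G := ⟨_, rfl⟩
  obtain ⟨X, hX⟩ : ∃ X, X = E * (8 * P * θb) ^ j := ⟨_, rfl⟩
  have hX1 : 1 ≤ X := by
    rw [hX]
    exact Nat.mul_pos hE (Nat.pow_pos (Nat.mul_pos (by omega) (by omega)))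
  have hXs : E * (8 * P * θb) ^ (j + 1) = 8 * P * θb * X := by rw [hX, pow_succ]; ring
  rw [hXs, ← hb, ← hn] at hbad
  rw [hXs] at hθ
  rw [← hn] at hpos
  have hA16 : 16 ≤ 8 * P * θb := by
    calc 16 = 8 * 1 * 2 := by norm_num
      _ ≤ _ := Nat.mul_le_mul (Nat.mul_le_mul_left _ hP) hθb2
  have hb16 : 8 * P * 2 * b ≤ n := by
    refine le_trans ?_ hbad
    calc 8 * P * 2 * b ≤ 8 * P * θb * b := Nat.mul_le_mul_right _ (Nat.mul_le_mul_left _ hθb2)
      _ = 8 * P * θb * 1 * b := by ring
      _ ≤ _ := Nat.mul_le_mul_right _ (Nat.mul_le_mul_left _ hX1)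
  have hθ8P : 8 * P ≤ θ := by
    refine le_trans ?_ hθ
    calc 8 * P = 8 * P * 1 * 1 := by ring
      _ ≤ 8 * P * θb * X := Nat.mul_le_mul (Nat.mul_le_mul_left _ (by omega)) hX1
  have hθ16 : 16 ≤ θ := by
    refine le_trans ?_ hθ
    calc 16 = 16 * 1 := by norm_num
      _ ≤ _ := Nat.mul_le_mul hA16 hX1
  -- find the right stage
  have hstop : ∃ i < P, ((grow next q (8 * P) G)^[i] T).Nodup ∧
      (∀ s ∈ (grow next q (8 * P) G)^[i] T, s ∈ S ∧ s ∈ Rel next S R) ∧
      (n ≤ 8 * P * ((waiting next q ((grow next q (8 * P) G)^[i] T) G).filter fun e =>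
          isFreq next θ n (waiting next q ((grow next q (8 * P) G)^[i] T) G) e &&
            decide (∃ s, qry next e = some s ∧ s ∉ S)).length ∨
        pop next (8 * P) n (waiting next q ((grow next q (8 * P) G)^[i] T) G) = none) := by
    by_contra hcon
    push Not at hcon
    have key : ∀ i ≤ P, ((grow next q (8 * P) G)^[i] T).Nodup ∧
        (∀ s ∈ (grow next q (8 * P) G)^[i] T, s ∈ S ∧ s ∈ Rel next S R) ∧
        ((grow next q (8 * P) G)^[i] T).length = T.length + i := by
      intro i
      induction i with
      | zero => intro _; exact ⟨hTn, hT, rfl⟩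
      | succ i ih2 =>
        intro hi
        obtain ⟨h1, h2, h3⟩ := ih2 (by omega)
        obtain ⟨h4, h5⟩ := hcon i (by omega) h1 h2
        obtain ⟨s, h5⟩ := Option.ne_none_iff_exists'.1 h5
        rw [Function.iterate_succ_apply']
        set T' := (grow next q (8 * P) G)^[i] T with hT'
        have hgrow : grow next q (8 * P) G T' = s :: T' := by
          unfold grow
          rw [← hn, h5]
        obtain ⟨h7, h8⟩ := exists_good_pend hred.toRed (fun s hs => (h2 s hs).1) hG
          (θ := 8 * P) (a := 2) (by omega) (by omega) (by rw [← hb, ← hn]; exact hb16)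
          (by omega) (by rw [← hn]; exact h5)
        have h6 : s ∈ S := by
          by_contra hsS
          have h9 := List.find?_some h5
          rw [decide_eq_true_eq] at h9
          have h10 : (pend next s (waiting next q T' G)).length ≤
              ((waiting next q T' G).filter fun e => isFreq next θ n (waiting next q T' G) e &&
                decide (∃ s, qry next e = some s ∧ s ∉ S)).length := by
            refine length_filter_mono _ _ _ fun e _ he => ?_
            rw [decide_eq_true_eq] at he
            unfold isFreq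
            rw [he]
            simp only [Bool.and_eq_true, decide_eq_true_eq]
            exact ⟨h9.trans (Nat.mul_le_mul_right _ hθ8P), s, rfl, hsS⟩
          have h11 := Nat.mul_le_mul_left (8 * P) h10
          omega
        rw [hgrow]
        refine ⟨List.nodup_cons.2 ⟨h7, h1⟩, ?_, by rw [List.length_cons, h3]; omega⟩
        intro s' hs'
        rcases List.mem_cons.1 hs' with rfl | hs'
        · exact ⟨h6, h8⟩
        · exact h2 s' hs'
    obtain ⟨h1, h2, h3⟩ := key P le_rfl
    have := hS _ h1 h2
    omega
  obtain ⟨i, hi, hTn', hT', hst⟩ := hstop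
  obtain ⟨T', hT'def⟩ : ∃ T', T' = (grow next q (8 * P) G)^[i] T := ⟨_, rfl⟩
  rw [← hT'def] at hTn' hT' hst
  have hsucc : ∀ y ∈ succT next ℓ q θ θb T' G, y ∈ stepD next ℓ q P θ θb (false, T, G) := by
    intro y hy
    unfold stepD
    rw [cond_false]
    refine List.mem_flatMap.2 ⟨i, List.mem_range.2 hi, ?_⟩
    simp only
    rw [← hT'def]
    exact hy
  have hT'S : ∀ s ∈ T', s ∈ S := fun s hs => (hT' s hs).1
  have hbadadv : bad next S (G.map (adv next q T')) ≤ b := by
    rw [hb]
    exact bad_map_le _ _ fun e _ he => (good_adv hT'S q).2 he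
  have hlen := length_halted_add (next := next) q T' G
  rw [← hn] at hlen
  obtain ⟨U, hUdef⟩ : ∃ U, U = waiting next q T' G := ⟨_, rfl⟩
  have hbadU : bad next S U ≤ b := by
    rw [hUdef]; exact (bad_filter_le _ _).trans hbadadv
  have hUR : ∀ e ∈ U, e.1 ∈ R := by
    intro e' he'
    rw [hUdef] at he'
    obtain ⟨e, he, rfl⟩ := mem_waiting he'
    rw [adv_fst]; exact hG e he
  have hUs : ∀ e ∈ U, (qry next e).isSome := by
    intro e he
    rw [hUdef] at he
    exact (List.mem_filter.1 he).2
  rw [← hUdef] at hst hlen
  -- the transcripts after the negative answer, for a sublist of the waiting items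
  have hfinish : ∀ W : List Item, (∀ e ∈ W, e ∈ U) → 0 < W.length →
      X * bad next S (W.map no) * θb ≤ W.length → n ≤ θ * W.length →
      ∃ G' ∈ block next ℓ q θb (W.map no),
        OkD next S R k E (8 * P * θb) (θ * θb) C j (false, T', G') := by
    intro W hW hWpos hWbad hWn
    obtain ⟨G2, hG2, h1, h2, h3, h4⟩ := exists_block hred hℓ (G := W.map no) (by
      intro e he
      obtain ⟨e', he', rfl⟩ := List.mem_map.1 he
      exact hUR e' (hW e' he')) hθb hθb2
    rw [List.length_map] at h2
    refine ⟨G2, hG2, ?_, ?_, Or.inr ⟨rfl, hTn', hT', ?_, ?_, ?_⟩⟩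
    · intro e he
      obtain ⟨e0, he0, h6, _⟩ := h3 e he
      obtain ⟨e', he', rfl⟩ := List.mem_map.1 he0
      rw [← h6]
      exact hUR e' (hW e' he')
    · rcases Nat.eq_zero_or_pos G2.length with h0 | h0
      · rw [h0] at h2; omega
      · exact h0
    · show E * (8 * P * θb) ^ j * bad next S G2 ≤ G2.length
      rw [← hX]
      have h6 : θb * (X * bad next S G2) ≤ θb * G2.length := by
        calc θb * (X * bad next S G2) ≤ θb * (X * bad next S (W.map no)) :=
              Nat.mul_le_mul_left _ (Nat.mul_le_mul_left _ h1)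
          _ = X * bad next S (W.map no) * θb := by ring
          _ ≤ W.length := hWbad
          _ ≤ _ := h2
      exact Nat.le_of_mul_le_mul_left h6 (by omega)
    · intro e he hg
      refine ⟨h4 e he hg, ?_⟩
      obtain ⟨e0, he0, h6, h7⟩ := h3 e he
      obtain ⟨e', he', rfl⟩ := List.mem_map.1 he0
      have he'U := hW e' he'
      rw [hUdef] at he'U
      obtain ⟨e1, he1, rfl⟩ := mem_waiting he'U
      have hg0 : Good next S ((no (adv next q T' e1)).1, (no (adv next q T' e1)).2) := by
        rw [h6]; exact Good.of_prefix (tr' := e.2) hg h7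
      have hg' : Good next S (adv next q T' e1) :=
        Good.of_prefix (tr' := (no (adv next q T' e1)).2) hg0 (List.prefix_append _ _)
      have hge := (good_adv hT'S q).1 hg'
      have h8 := hk e1 he1 hge
      have h9 : free next (adv next q T' e1) = false := by
        by_contra h10
        rw [Bool.not_eq_false] at h10
        rw [free_adv h10] at h8
        exact absurd h8.1 (by simp)
      have h10 := turns_append (next := next) (adv next q T' e1).1 (adv next q T' e1).2 false
      have h9' : free next ((adv next q T' e1).1, (adv next q T' e1).2) = false := h9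
      rw [if_pos ⟨rfl, h9'⟩] at h10
      have h11 := turns_mono (next := next) e.1 h7
      have h12 : (no (adv next q T' e1)).1 = (adv next q T' e1).1 := rfl
      have h13 : (no (adv next q T' e1)).2 = (adv next q T' e1).2 ++ [false] := rfl
      rw [← h6, h12, h13, h10] at h11
      have h14 : turns next e1 ≤ turns next ((adv next q T' e1).1, (adv next q T' e1).2) := by
        rw [adv_fst]
        exact turns_mono (next := next) e1.1 (iter_prefix _ _ _)
      have h15 : e = (e.1, e.2) := rfl
      rw [h15, ← h6, h12]
      omega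
    · show R.length * (θ * θb) ^ j ≤ C * G2.length
      have h6 : θ * θb * (R.length * (θ * θb) ^ j) ≤ θ * θb * (C * G2.length) := by
        calc θ * θb * (R.length * (θ * θb) ^ j) = R.length * (θ * θb) ^ (j + 1) := by
              rw [pow_succ]; ring
          _ ≤ C * n := by rw [hn]; exact hsize
          _ ≤ C * (θ * (θb * G2.length)) :=
              Nat.mul_le_mul_left _ (hWn.trans (Nat.mul_le_mul_left _ h2))
          _ = _ := by ring
      exact Nat.le_of_mul_le_mul_left h6 (Nat.mul_pos (by omega) (by omega))
  -- the two cases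
  by_cases hneg : n ≤ 8 * P * (U.filter fun e =>
      isFreq next θ n U e && decide (∃ s, qry next e = some s ∧ s ∉ S)).length
  · -- a frequent negative query
    obtain ⟨L, hL⟩ : ∃ L, L = (freq next θ n U).filter fun s => decide (s ∉ S) := ⟨_, rfl⟩
    have hLn : L.Nodup := by rw [hL]; exact (nodup_nub _).filter _
    have h1 : (U.filter fun e =>
        isFreq next θ n U e && decide (∃ s, qry next e = some s ∧ s ∉ S)).length ≤
        (L.map fun s => (pend next s U).length).sum := by
      refine (length_le_sum (qry next) L _ ?_).trans ?_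
      · intro e he
        obtain ⟨h2, h3⟩ := List.mem_filter.1 he
        rw [Bool.and_eq_true, decide_eq_true_eq] at h3
        obtain ⟨h3, s, h4, h5⟩ := h3
        refine ⟨s, ?_, h4⟩
        rw [hL, List.mem_filter, decide_eq_true_eq]
        refine ⟨mem_freq.2 ⟨⟨e, h2, h4⟩, ?_⟩, h5⟩
        unfold isFreq at h3
        rw [h4] at h3
        simpa using h3
      · refine List.sum_le_sum fun s _ => ?_
        unfold pend
        rw [List.filter_filter]
        exact length_filter_mono _ _ _ fun e _ h => by
          rw [Bool.and_eq_true] at h; exact h.1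
    obtain ⟨s, hs, h2⟩ := exists_avg L (fun s => (pend next s U).length)
      (fun s => bad next S (pend next s U)) (a := 8 * P) (b := b) hpos
      (hneg.trans (Nat.mul_le_mul_left _ h1)) ((pend_filter_sum L hLn U).trans hbadU)
    rw [hL, List.mem_filter, decide_eq_true_eq] at hs
    obtain ⟨hsf, hsS⟩ := hs
    have h3 := (mem_freq.1 hsf).2
    have h4 : bad next S ((pend next s U).map no) ≤ bad next S (pend next s U) := by
      refine bad_map_le _ _ ?_
      intro e' he' hg
      have h6 := (List.mem_filter.1 he').2
      rw [decide_eq_true_eq] at h6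
      exact hg.append h6 (by simp [hsS])
    obtain ⟨G', hG', hok⟩ := hfinish (pend next s U) (fun e he => (List.mem_filter.1 he).1) (by
        rcases Nat.eq_zero_or_pos (pend next s U).length with h0 | h0
        · rw [h0] at h3; omega
        · exact h0) (by
        have h5 : n * (X * bad next S ((pend next s U).map no) * θb) ≤
            n * (pend next s U).length := by
          calc n * (X * bad next S ((pend next s U).map no) * θb)
              ≤ n * (X * bad next S (pend next s U) * θb) :=
                Nat.mul_le_mul_left _ (Nat.mul_le_mul_right _ (Nat.mul_le_mul_left _ h4))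
            _ = X * θb * (n * bad next S (pend next s U)) := by ring
            _ ≤ X * θb * (8 * P * b * (pend next s U).length) := Nat.mul_le_mul_left _ h2
            _ = 8 * P * θb * X * b * (pend next s U).length := by ring
            _ ≤ _ := Nat.mul_le_mul_right _ hbad
        exact Nat.le_of_mul_le_mul_left h5 hpos) h3
    refine ⟨(false, T', G'), hsucc _ ?_, hok⟩
    refine List.mem_cons_of_mem _ (List.mem_append_right _ (List.mem_flatMap.2 ⟨s, ?_, ?_⟩))
    · rw [← hn, ← hUdef]; exact hsf
    · rw [← hUdef]
      exact List.mem_map.2 ⟨G', hG', rfl⟩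
  · -- no frequent negative query
    have hpop := hst.resolve_left hneg
    have h1 := unpopular hS hUR hpop
      (fun e => decide (Good next S e ∧ ∃ s ∈ S, qry next e = some s))
      (fun e _ h => by simpa using h)
    have h2 := length_le_filters U (fun e => !isFreq next θ n U e)
      (fun e => isFreq next θ n U e && decide (∃ s, qry next e = some s ∧ s ∉ S))
      (fun e => decide (Good next S e ∧ ∃ s ∈ S, qry next e = some s))
      (fun e => decide (¬ Good next S e)) (by
        intro e he
        cases hf : isFreq next θ n U e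
        · left; rfl
        · right
          obtain ⟨s, hs⟩ := Option.isSome_iff_exists.1 (hUs e he)
          by_cases hsS : s ∈ S
          · by_cases hg : Good next S e
            · right; left
              rw [decide_eq_true_eq]
              exact ⟨hg, s, hsS, hs⟩
            · right; right
              rw [decide_eq_true_eq]
              exact hg
          · left
            rw [Bool.true_and, decide_eq_true_eq]
            exact ⟨s, hs, hsS⟩)
    have h3 : (U.filter fun e => decide (¬ Good next S e)).length = bad next S U := rfl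
    have h4 : U.filter (fun e => !isFreq next θ n U e) = rare next θ n U := rfl
    rw [h3, h4] at h2
    obtain ⟨v1, hv1⟩ : ∃ v1, v1 = (U.filter fun e =>
      decide (Good next S e ∧ ∃ s ∈ S, qry next e = some s)).length := ⟨_, rfl⟩
    obtain ⟨v2, hv2⟩ : ∃ v2, v2 = (U.filter fun e => isFreq next θ n U e &&
      decide (∃ s, qry next e = some s ∧ s ∉ S)).length := ⟨_, rfl⟩
    rw [← hv1] at h1 h2
    rw [← hv2] at hneg h2
    have h5 : 8 * v1 ≤ n := by
      have : P * (8 * v1) ≤ P * n := by
        calc P * (8 * v1) = 8 * P * v1 := by ring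
          _ ≤ _ := h1
      exact Nat.le_of_mul_le_mul_left this hP
    have h6 : 8 * v2 ≤ n := by
      push Not at hneg
      have : 8 * v2 ≤ 8 * P * v2 := Nat.mul_le_mul_right _ (by omega)
      omega
    have h7 : 8 * b ≤ n := by
      have : 8 * b ≤ 8 * P * 2 * b := Nat.mul_le_mul_right _ (by omega)
      omega
    by_cases hH : n ≤ 4 * (halted next q T' G).length
    · -- many items have stopped
      refine ⟨(true, T', halted next q T' G), hsucc _ List.mem_cons_self, ?_, ?_,
        Or.inl ⟨rfl, ?_, ?_, ?_⟩⟩
      · intro e' he'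
        obtain ⟨e, he, rfl, _⟩ := mem_halted he'
        rw [adv_fst]; exact hG e he
      · show 0 < (halted next q T' G).length
        omega
      · show E * bad next S (halted next q T' G) ≤ (halted next q T' G).length
        have h8 : bad next S (halted next q T' G) ≤ b := (bad_filter_le _ _).trans hbadadv
        have h9 : E ≤ X := by
          rw [hX]
          exact Nat.le_mul_of_pos_right _ (Nat.pow_pos (by omega))
        have h10 : 16 * (E * bad next S (halted next q T' G)) ≤ n := by
          refine le_trans ?_ hbad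
          calc 16 * (E * bad next S (halted next q T' G)) ≤ 8 * P * θb * (X * b) :=
                Nat.mul_le_mul hA16 (Nat.mul_le_mul h9 h8)
            _ = _ := by ring
        omega
      · intro e' he' _
        obtain ⟨e, he, rfl, hn'⟩ := mem_halted he'
        exact hn'
      · show R.length ≤ C * (halted next q T' G).length
        have h8 : 4 ≤ (θ * θb) ^ (j + 1) := by
          calc 4 ≤ (θ * θb) ^ 1 := by
                rw [pow_one]
                calc 4 ≤ 16 * 2 := by norm_num
                  _ ≤ _ := Nat.mul_le_mul hθ16 hθb2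
            _ ≤ _ := Nat.pow_le_pow_right (Nat.mul_pos (by omega) (by omega)) (by omega)
        have h9 : 4 * R.length ≤ 4 * (C * (halted next q T' G).length) := by
          calc 4 * R.length = R.length * 4 := by ring
            _ ≤ R.length * (θ * θb) ^ (j + 1) := Nat.mul_le_mul_left _ h8
            _ ≤ C * n := by rw [hn]; exact hsize
            _ ≤ C * (4 * (halted next q T' G).length) := Nat.mul_le_mul_left _ hH
            _ = _ := by ring
        omega
    · -- many rare queries
      have hU' : n ≤ 4 * (rare next θ n U).length := by omega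
      have hpop' : pop next θ n (rare next θ n U) = none := by
        unfold pop
        rw [List.find?_eq_none]
        intro s hs
        rw [decide_eq_true_eq, not_le]
        obtain ⟨e, he, hes⟩ := List.mem_filterMap.1 hs
        obtain ⟨_, h8⟩ := List.mem_filter.1 he
        unfold isFreq at h8
        rw [hes] at h8
        simp only [Bool.not_eq_true', decide_eq_false_iff_not, not_le] at h8
        refine lt_of_le_of_lt (Nat.mul_le_mul_left _ ?_) h8
        unfold pend rare
        rw [List.filter_filter]
        exact length_filter_mono _ _ _ fun e _ h => by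
          rw [Bool.and_eq_true] at h; exact h.1
      have h8 := bad_map_no_le (rare next θ n U) hS
        (fun e he => hUR e (List.mem_filter.1 he).1)
        (fun e he => hUs e (List.mem_filter.1 he).1) hpop'
      have h9 : bad next S (rare next θ n U) ≤ b := (bad_filter_le _ _).trans hbadU
      obtain ⟨G', hG', hok⟩ := hfinish (rare next θ n U) (fun e he => (List.mem_filter.1 he).1)
        (by omega) (by
          obtain ⟨b1, hb1⟩ : ∃ b1, b1 = bad next S ((rare next θ n U).map no) := ⟨_, rfl⟩
          rw [← hb1] at h8 ⊢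
          obtain ⟨w, hw⟩ : ∃ w, w = (rare next θ n U).length := ⟨_, rfl⟩
          rw [← hw] at hU' ⊢
          have h10 : θ * b1 ≤ θ * b + P * n := h8.trans
            (Nat.add_le_add_right (Nat.mul_le_mul_left _ h9) _)
          have h11 : 8 * (θ * (X * b1 * θb)) ≤ 8 * (θ * w) := by
            calc 8 * (θ * (X * b1 * θb)) = 8 * X * θb * (θ * b1) := by ring
              _ ≤ 8 * X * θb * (θ * b + P * n) := Nat.mul_le_mul_left _ h10
              _ = 1 * θ * (8 * θb * X * b) + 8 * P * θb * X * n := by ring
              _ ≤ 1 * θ * (8 * P * θb * X * b) + θ * n := by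
                  refine Nat.add_le_add (Nat.mul_le_mul_left _ ?_) (Nat.mul_le_mul_right _ hθ)
                  refine Nat.mul_le_mul_right _ (Nat.mul_le_mul_right _
                    (Nat.mul_le_mul_right _ (by omega)))
              _ ≤ 1 * θ * n + θ * n := Nat.add_le_add_right (Nat.mul_le_mul_left _ hbad) _
              _ = 2 * (θ * n) := by ring
              _ ≤ 2 * (θ * (4 * w)) := Nat.mul_le_mul_left _ (Nat.mul_le_mul_left _ hU')
              _ = _ := by ring
          have h12 : θ * (X * b1 * θb) ≤ θ * w := by omega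
          exact Nat.le_of_mul_le_mul_left h12 (by omega)) (by
          refine hU'.trans (Nat.mul_le_mul_right _ (by omega)))
      refine ⟨(false, T', G'), hsucc _ ?_, hok⟩
      refine List.mem_cons_of_mem _ (List.mem_append_left _ (List.mem_map.2 ⟨G', ?_, rfl⟩))
      rw [← hn, ← hUdef]
      exact hG'

/-- The last step. -/
lemma ok_final {R : List Word} {q k E A D C : ℕ} (hred : RedT next S R q k) {x : St}
    (hx : OkD next S R k E A D C 0 x) : 0 < (x.2.2.map (yes next q)).length ∧
      E * bad next S (x.2.2.map (yes next q)) ≤ (x.2.2.map (yes next q)).length ∧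
      (∀ e ∈ x.2.2.map (yes next q), e.1 ∈ R) ∧
      (∀ e ∈ x.2.2.map (yes next q), Good next S e → next e.1 e.2 = none) ∧
      R.length ≤ C * (x.2.2.map (yes next q)).length := by
  obtain ⟨h1, h2, h3⟩ := hx
  rw [List.length_map]
  have hmem : ∀ e ∈ x.2.2.map (yes next q), e.1 ∈ R := by
    intro e' he'
    obtain ⟨e, he, rfl⟩ := List.mem_map.1 he'
    rw [show (yes next q e).1 = e.1 from iter_fst _ _ _]
    exact h1 e he
  have hback : ∀ e, Good next S (yes next q e) → Good next S e := by
    intro e hg'
    have h1 := iter_prefix (next := next) (fun _ => some true) q e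
    have h2 : (yes next q e).1 = e.1 := iter_fst _ _ _
    have h3 : Good next S ((yes next q e).1, (yes next q e).2) := hg'
    rw [h2] at h3
    exact h3.of_prefix h1
  rcases h3 with ⟨_, h4, h5, h6⟩ | ⟨_, _, _, h4, h5, h6⟩
  · have hid : ∀ e ∈ x.2.2, Good next S e → yes next q e = e := by
      intro e he hg
      have h7 : step next (fun _ => some true) e = e := by
        unfold step
        rw [h5 e he hg]
      unfold yes
      exact Function.iterate_fixed h7 q
    refine ⟨h2, ?_, hmem, ?_, h6⟩
    · refine le_trans (Nat.mul_le_mul_left E (bad_map_le _ _ fun e he hg => ?_)) h4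
      rw [hid e he hg]; exact hg
    · intro e' he' hg'
      obtain ⟨e, he, rfl⟩ := List.mem_map.1 he'
      have hg := hback e hg'
      rw [hid e he hg]
      exact h5 e he hg
  · rw [pow_zero, mul_one] at h4 h6
    refine ⟨h2, ?_, hmem, ?_, h6⟩
    · refine le_trans (Nat.mul_le_mul_left E (bad_map_le _ _ fun e he hg => ?_)) h4
      exact good_yesT hred (h1 e he) hg (by simpa using (h5 e he hg).2) (h5 e he hg).1 q
    · intro e' he' hg'
      obtain ⟨e, he, rfl⟩ := List.mem_map.1 he'
      have hg := hback e hg'
      exact yes_haltsT hred (h1 e he) hg (by simpa using (h5 e he hg).2) (h5 e he hg).1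

theorem exists_levelD {R : List Word} {q k P θ θb E C : ℕ} (hred : RedT next S R q k)
    (hℓ : ∀ r ∈ R, ∀ tr s, Good next S (r, tr) → next r tr = some s → s.length ≤ ℓ)
    (hP : 0 < P) (hθb : 2 * (q * (ℓ + 1)) ≤ θb) (hθb2 : 2 ≤ θb) (hE : 1 ≤ E)
    (hS : ∀ L : List Word, L.Nodup → (∀ s ∈ L, s ∈ S ∧ s ∈ Rel next S R) → L.length < P)
    (j : ℕ) : E * (8 * P * θb) ^ j ≤ θ → ∀ (X : List St) (x : St), x ∈ X →
      X.length * numD ℓ q P θ ^ j ≤ C → OkD next S R k E (8 * P * θb) (θ * θb) C j x →
      ∃ y ∈ (levelD next ℓ q P θ θb C)^[j] X, OkD next S R k E (8 * P * θb) (θ * θb) C 0 y := by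
  induction j with
  | zero => intro _ X x hx _ hok; exact ⟨x, hx, hok⟩
  | succ j ih =>
    intro hθ X x hx hXC hok
    have hA : 0 < 8 * P * θb := Nat.mul_pos (by omega) (by omega)
    obtain ⟨y, hy, hyok⟩ := exists_stepD hred hℓ hP hθb hθb2 hE hS j hθ x hok
    have hlen : (X.flatMap (stepD next ℓ q P θ θb)).length ≤ X.length * numD ℓ q P θ :=
      length_flatMap_le _ _ _ fun z _ => length_stepD hP z
    have hnum : 0 < numD ℓ q P θ := Nat.mul_pos hP (by omega)
    have hle : X.length * numD ℓ q P θ ≤ C := by
      refine le_trans (Nat.mul_le_mul_left _ ?_) hXC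
      calc numD ℓ q P θ = numD ℓ q P θ ^ 1 := (pow_one _).symm
        _ ≤ _ := Nat.pow_le_pow_right hnum (by omega)
    rw [Function.iterate_succ_apply]
    have heq : levelD next ℓ q P θ θb C X = X.flatMap (stepD next ℓ q P θ θb) := by
      unfold levelD
      exact List.take_of_length_le (hlen.trans hle)
    rw [heq]
    refine ih ((Nat.mul_le_mul_left _ (Nat.pow_le_pow_right hA (by omega))).trans hθ) _ y
      (List.mem_flatMap.2 ⟨x, hx, hy⟩) ?_ hyok
    refine le_trans (Nat.mul_le_mul_right _ hlen) ?_
    rw [pow_succ] at hXC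
    calc X.length * numD ℓ q P θ * numD ℓ q P θ ^ j
        = X.length * (numD ℓ q P θ ^ j * numD ℓ q P θ) := by ring
      _ ≤ C := hXC

/-- In one of the collections nearly all transcripts are right and complete. -/
theorem exists_searchD {R : List Word} {q κ P θ θb E C : ℕ} (hred : RedT next S R q κ)
    (hℓ : ∀ r ∈ R, ∀ tr s, Good next S (r, tr) → next r tr = some s → s.length ≤ ℓ)
    (hP : 0 < P) (hθb : 2 * (q * (ℓ + 1)) ≤ θb) (hθb2 : 2 ≤ θb) (hE : 1 ≤ E)
    (hS : ∀ L : List Word, L.Nodup → (∀ s ∈ L, s ∈ S ∧ s ∈ Rel next S R) → L.length < P)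
    (hθ : E * (8 * P * θb) ^ κ ≤ θ) (hC1 : numD ℓ q P θ ^ κ ≤ C) (hC2 : (θ * θb) ^ κ ≤ C)
    (hR : 0 < R.length) :
    ∃ G ∈ searchD next ℓ q P θ θb C κ R, 0 < G.length ∧ E * bad next S G ≤ G.length ∧
      (∀ e ∈ G, e.1 ∈ R) ∧ ∀ e ∈ G, Good next S e → next e.1 e.2 = none := by
  classical
  obtain ⟨y, hy, hyok⟩ := exists_levelD (C := C) hred hℓ hP hθb hθb2 hE hS κ hθ
    [(false, [], R.map fun r => (r, []))] (false, [], R.map fun r => (r, [])) (by simp)
    (by rw [List.length_singleton, one_mul]; exact hC1) (by
      refine ⟨?_, ?_, Or.inr ⟨rfl, List.nodup_nil, by simp, ?_, ?_, ?_⟩⟩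
      · intro e he
        obtain ⟨r, hr, rfl⟩ := List.mem_map.1 he
        exact hr
      · show 0 < (R.map fun r => ((r, []) : Item)).length
        rw [List.length_map]; exact hR
      · have : bad next S (R.map fun r => (r, [])) = 0 := by
          unfold bad
          rw [List.length_eq_zero_iff, List.filter_eq_nil_iff]
          intro e he
          obtain ⟨r, hr, rfl⟩ := List.mem_map.1 he
          simpa using Good.nil r
        show E * (8 * P * θb) ^ κ * bad next S (R.map fun r => (r, [])) ≤ _
        rw [this]
        simp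
      · intro e he _
        obtain ⟨r, hr, rfl⟩ := List.mem_map.1 he
        exact ⟨by simp [KNo.free, KNo.blk], Nat.le_add_right _ _⟩
      · show R.length * (θ * θb) ^ κ ≤ C * (R.map fun r => ((r, []) : Item)).length
        rw [List.length_map, mul_comm]
        exact Nat.mul_le_mul_right _ hC2)
  obtain ⟨h1, h2, h3, h4, h5⟩ := ok_final hred hyok
  refine ⟨_, List.mem_filter.2 ⟨List.mem_map.2 ⟨y, hy, rfl⟩, ?_⟩, h1, h2, h3, h4⟩
  rw [decide_eq_true_eq]
  exact h5

end correct

end Pool.Agent.Lib.MP_634427_lc.KNo
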