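import Pool.Agent.Lib.MP_634427_lc.TurnDefs

/-!
# Adaptive reductions with many blocks of negative answers

`searchD` computes, without knowing the oracle, a list of collections of transcripts; one of them
contains transcripts for a large part of the tests, nearly all of them right and complete. The
number of the collections and all thresholds are singly exponential in the number `κ` of the blocks
of negative answers: an averaging argument shows that in each turn the fraction of the false
transcripts grows by at most a fixed factor.
-/

namespace Pool.Agent.Lib.MP_634427_lc.KNo

section defs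

variable (next : Word → List Bool → Option Word) (ℓ : ℕ)

/-- Is the pending query of `e` frequent? -/
def isFreq (θ n : ℕ) (U : List Item) (e : Item) : Bool :=
  match qry next e with
  | none => false
  | some s => decide (n ≤ θ * (pend next s U).length)

/-- The items with a rare pending query. -/
def rare (θ n : ℕ) (U : List Item) : List Item := U.filter fun e => !isFreq next θ n U e

/-- Remove repetitions. -/
def nub (L : List Word) : List Word := L.foldr (fun s r => bif decide (s ∈ r) then r else s :: r) []

/-- The frequent pending queries. -/
def freq (θ n : ℕ) (U : List Item) : List Word :=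
  nub ((U.filterMap (qry next)).filter fun s => decide (n ≤ θ * (pend next s U).length))

/-- A state: is it final, the positive words found, the collection. -/
abbrev St := Bool × List Word × List Item

/-- The successors of a collection, for the list `T` of positive words. -/
def succT (q θ θb : ℕ) (T : List Word) (G : List Item) : List St :=
  (true, T, halted next q T G) ::
    (((block next ℓ q θb ((rare next θ G.length (waiting next q T G)).map no)).map
      fun G' => (false, T, G')) ++
    (freq next θ G.length (waiting next q T G)).flatMap fun s =>
      (block next ℓ q θb ((pend next s (waiting next q T G)).map no)).map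
        fun G' => (false, T, G'))

/-- The successors of a state. -/
def stepD (q P θ θb : ℕ) (x : St) : List St :=
  bif x.1 then [x] else (List.range P).flatMap fun i =>
    succT next ℓ q θ θb ((grow next q (8 * P) x.2.2)^[i] x.2.1) x.2.2

/-- One turn for all states; at most `C` of them are kept. -/
def levelD (q P θ θb C : ℕ) (X : List St) : List St :=
  (X.flatMap (stepD next ℓ q P θ θb)).take C

/-- The search for collections of transcripts. -/
def searchD (q P θ θb C κ : ℕ) (R : List Word) : List (List Item) :=
  (((levelD next ℓ q P θ θb C)^[κ] [(false, [], R.map fun r => (r, []))]).map fun x =>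
    x.2.2.map (yes next q)).filter fun G => decide (R.length ≤ C * G.length)

/-- Bound for the number of successors. -/
def numD (q P θ : ℕ) : ℕ := P * (1 + (1 + θ) * (q * (ℓ + 1) + 1))

end defs

section nub

lemma nub_cons (s : Word) (L : List Word) :
    nub (s :: L) = bif decide (s ∈ nub L) then nub L else s :: nub L := rfl

lemma mem_nub {s : Word} {L : List Word} : s ∈ nub L ↔ s ∈ L := by
  induction L with
  | nil => simp [nub]
  | cons t L ih =>
    rw [nub_cons]
    by_cases h : t ∈ nub L
    · rw [decide_eq_true h, cond_true, List.mem_cons, ih]
      constructor
      · exact Or.inr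
      · rintro (rfl | h')
        · exact ih.1 h
        · exact h'
    · rw [decide_eq_false h, cond_false, List.mem_cons, List.mem_cons, ih]

lemma nodup_nub (L : List Word) : (nub L).Nodup := by
  induction L with
  | nil => simp [nub]
  | cons t L ih =>
    rw [nub_cons]
    by_cases h : t ∈ nub L
    · rw [decide_eq_true h, cond_true]; exact ih
    · rw [decide_eq_false h, cond_false]; exact List.nodup_cons.2 ⟨h, ih⟩

lemma sublist_nub (L : List Word) : (nub L).Sublist L := by
  induction L with
  | nil => simp [nub]
  | cons t L ih =>
    rw [nub_cons]
    by_cases h : t ∈ nub L
    · rw [decide_eq_true h, cond_true]; exact ih.cons _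
    · rw [decide_eq_false h, cond_false]; exact ih.cons_cons _

end nub

section size

variable {next : Word → List Bool → Option Word} {ℓ : ℕ}

lemma mem_freq {θ n : ℕ} {U : List Item} {s : Word} :
    s ∈ freq next θ n U ↔ (∃ e ∈ U, qry next e = some s) ∧
      n ≤ θ * (pend next s U).length := by
  unfold freq
  rw [mem_nub, List.mem_filter, List.mem_filterMap, decide_eq_true_eq]

/-- the collections of the items with a given pending query are disjoint -/
lemma sum_pend_le (L : List Word) (hL : L.Nodup) (U : List Item) :
    (L.map fun s => (pend next s U).length).sum ≤ U.length := by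
  induction U with
  | nil =>
    have : (L.map fun s => (pend next s []).length).sum = 0 := by
      rw [List.sum_eq_zero_iff]
      intro x hx
      obtain ⟨s, _, rfl⟩ := List.mem_map.1 hx
      rfl
    omega
  | cons e U ih =>
    have h2 : (L.map fun s => (pend next s (e :: U)).length)
        = L.map fun s => (if qry next e = some s then 1 else 0) + (pend next s U).length := by
      refine List.map_congr_left fun s _ => ?_
      unfold pend
      rw [List.filter_cons]
      by_cases h' : qry next e = some s
      · simp [h']; omega
      · simp [h']
    rw [h2, List.sum_map_add, List.length_cons]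
    have h3 : (L.map fun s => if qry next e = some s then 1 else 0).sum ≤ 1 := by
      clear ih h2
      induction L with
      | nil => simp
      | cons t L ih =>
        rw [List.nodup_cons] at hL
        rw [List.map_cons, List.sum_cons]
        by_cases h' : qry next e = some t
        · have h4 : (L.map fun s => if qry next e = some s then 1 else 0).sum = 0 := by
            rw [List.sum_eq_zero_iff]
            intro x hx
            obtain ⟨s, hs, rfl⟩ := List.mem_map.1 hx
            rw [if_neg]
            intro h5
            rw [h'] at h5
            exact hL.1 (Option.some.inj h5 ▸ hs)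
          rw [if_pos h', h4]
        · rw [if_neg h']
          have := ih hL.2
          omega
    omega

lemma length_freq {θ n : ℕ} {U : List Item} (hU : U.length ≤ n) :
    (freq next θ n U).length ≤ θ := by
  rcases Nat.eq_zero_or_pos n with h | hn
  · have h1 : U = [] := List.length_eq_zero_iff.1 (by omega)
    subst h1
    simp [freq, nub]
  · have h1 := sum_pend_le (next := next) (freq next θ n U) (nodup_nub _) U
    have h2 : (freq next θ n U).length * n ≤
        ((freq next θ n U).map fun s => θ * (pend next s U).length).sum := by
      have := List.card_nsmul_le_sum ((freq next θ n U).map fun s => θ * (pend next s U).length) n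
        (by
          intro x hx
          obtain ⟨s, hs, rfl⟩ := List.mem_map.1 hx
          exact (mem_freq.1 hs).2)
      simpa using this
    rw [List.sum_map_mul_left] at h2
    have h3 : (freq next θ n U).length * n ≤ θ * n :=
      h2.trans (Nat.mul_le_mul_left _ (h1.trans hU))
    exact Nat.le_of_mul_le_mul_right h3 hn

lemma length_waiting_le (q : ℕ) (T : List Word) (G : List Item) :
    (waiting next q T G).length ≤ G.length := by
  have := length_halted_add (next := next) q T G
  omega

lemma length_succT (q θ θb : ℕ) (T : List Word) (G : List Item) :
    (succT next ℓ q θ θb T G).length ≤ 1 + (1 + θ) * (q * (ℓ + 1) + 1) := by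
  unfold succT
  rw [List.length_cons, List.length_append, List.length_map]
  have h1 := length_block (next := next) (ℓ := ℓ) q θb
    ((rare next θ G.length (waiting next q T G)).map no)
  have h2 := length_flatMap_le (freq next θ G.length (waiting next q T G))
    (fun s => (block next ℓ q θb ((pend next s (waiting next q T G)).map no)).map
        fun G' => ((false, T, G') : St)) (q * (ℓ + 1) + 1) (fun s _ => by
      rw [List.length_map]; exact length_block q θb _)
  have h3 := length_freq (next := next) (θ := θ) (length_waiting_le (next := next) q T G)
  have h4 := Nat.mul_le_mul_right (q * (ℓ + 1) + 1) h3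
  rw [Nat.add_mul, Nat.one_mul]
  omega

lemma length_stepD {q P θ θb : ℕ} (hP : 0 < P) (x : St) :
    (stepD next ℓ q P θ θb x).length ≤ numD ℓ q P θ := by
  unfold stepD numD
  cases x.1
  · rw [cond_false]
    exact (length_flatMap_le _ _ _ fun i _ => length_succT _ _ _ _ _).trans
      (le_of_eq (by rw [List.length_range]))
  · rw [cond_true, List.length_singleton]
    exact Nat.mul_pos hP (by omega)

lemma shape_succT {R : List Word} {q θ θb : ℕ} {T : List Word} {G : List Item} (hG : Shape R G)
    {y : St} (hy : y ∈ succT next ℓ q θ θb T G) : Shape R y.2.2 := by
  have hadv := hG.map (adv next q T) (adv_fst q T)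
  have hw : Shape R (waiting next q T G) := hadv.filter _
  rcases List.mem_cons.1 hy with rfl | hy
  · exact hadv.filter _
  · rcases List.mem_append.1 hy with hy | hy
    · obtain ⟨G', hG', rfl⟩ := List.mem_map.1 hy
      exact (shape_block ((hw.filter _).map no fun _ => rfl) hG').1
    · obtain ⟨s, _, hy⟩ := List.mem_flatMap.1 hy
      obtain ⟨G', hG', rfl⟩ := List.mem_map.1 hy
      exact (shape_block ((hw.filter _).map no fun _ => rfl) hG').1

lemma shape_levelD {R : List Word} {q P θ θb C : ℕ} (n : ℕ) {X : List St}
    (hX : ∀ x ∈ X, Shape R x.2.2) : ∀ y ∈ (levelD next ℓ q P θ θb C)^[n] X, Shape R y.2.2 := by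
  induction n with
  | zero => exact hX
  | succ n ih =>
    intro y hy
    rw [Function.iterate_succ_apply'] at hy
    obtain ⟨x, hx, hy⟩ := List.mem_flatMap.1 (List.mem_of_mem_take hy)
    unfold stepD at hy
    cases h : x.1
    · rw [h, cond_false] at hy
      obtain ⟨i, _, hy⟩ := List.mem_flatMap.1 hy
      exact shape_succT (ih x hx) hy
    · rw [h, cond_true, List.mem_singleton] at hy
      subst hy
      exact ih y hx

/-- The shape of the collections. -/
theorem shape_searchD {q P θ θb C κ : ℕ} {R : List Word} {G : List Item}
    (hG : G ∈ searchD next ℓ q P θ θb C κ R) : Shape R G ∧ R.length ≤ C * G.length := by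
  obtain ⟨h1, h2⟩ := List.mem_filter.1 hG
  rw [decide_eq_true_eq] at h2
  refine ⟨?_, h2⟩
  obtain ⟨x, hx, rfl⟩ := List.mem_map.1 h1
  refine (shape_levelD κ ?_ x hx).map _ fun e => iter_fst _ _ _
  intro x hx
  rw [List.mem_singleton] at hx
  subst hx
  exact ⟨fun _ => true, fun _ => [], by rw [List.filter_true]⟩

/-- There are few collections. -/
theorem length_searchD (q P θ θb C κ : ℕ) (R : List Word) :
    (searchD next ℓ q P θ θb C κ R).length ≤ C + 1 := by
  unfold searchD
  refine (List.length_filter_le _ _).trans ?_
  rw [List.length_map]
  rcases κ with _ | κ
  · simp
  · rw [Function.iterate_succ_apply']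
    unfold levelD
    exact (List.length_take_le _ _).trans (Nat.le_succ _)

end size

end Pool.Agent.Lib.MP_634427_lc.KNo
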