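import Pool.Agent.Lib.MP_634427_lc.CoverPT
import Pool.Agent.Lib.MP_634427_lc.Deep.Search

/-!
# `searchD` is a polynomial-time function
-/

namespace Pool.Agent.Lib.MP_634427_lc.KNo

open PT

variable {γ δ : Type} [Enc γ] [Enc δ] {next : γ → Word → List Bool → Option Word} {q : γ → ℕ}

lemma pt_nub {L : δ → List Word} (hL : PT L) : PT fun d => nub (L d) := by
  refine PT.foldr (f := fun _ (s : Word) r => bif decide (s ∈ r) then r else s :: r) hL
    (const []) (PT.cond (memWord (fst' snd) (snd' snd)) (snd' snd)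
      (PT.cons (fst' snd) (snd' snd))) ?_
  obtain ⟨k, hk⟩ := hL.size_le
  refine ⟨k, fun d l' hl' => ?_⟩
  have h1 : l'.foldr (fun s r => bif decide (s ∈ r) then r else s :: r) [] = nub l' := rfl
  rw [h1]
  exact ((sz_sublist_le (sublist_nub l')).trans (sz_suffix_le hl')).trans (hk d)

section

variable {cx : δ → γ} {ℓ θ θb n P C κ : δ → ℕ} {U G : δ → List Item} {T : δ → List Word}

lemma pt_isFreq (hn : PT fun p : γ × Word × List Bool => next p.1 p.2.1 p.2.2)
    {e : δ → Item} (hcx : PT cx) (hθ : PT θ) (hnn : PT n) (hU : PT U) (he : PT e) :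
    PT fun d => isFreq (next (cx d)) (θ d) (n d) (U d) (e d) :=
  (casesOption (o := fun d => qry (next (cx d)) (e d)) (f := fun _ => false)
    (g := fun d s => decide (n d ≤ θ d * (pend (next (cx d)) s (U d)).length))
    (pt_qry hn hcx he) (const false)
    (PT.le (hnn.comp fst) (PT.mul (hθ.comp fst) (PT.length (pt_pend hn (hcx.comp fst)
      snd (hU.comp fst)))))).of_eq fun d => by
        unfold isFreq; cases qry (next (cx d)) (e d) <;> rfl

lemma pt_rare (hn : PT fun p : γ × Word × List Bool => next p.1 p.2.1 p.2.2)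
    (hcx : PT cx) (hθ : PT θ) (hnn : PT n) (hU : PT U) :
    PT fun d => rare (next (cx d)) (θ d) (n d) (U d) :=
  PT.filter hU (p := fun d e => !isFreq (next (cx d)) (θ d) (n d) (U d) e)
    (PT.not (pt_isFreq hn (hcx.comp fst) (hθ.comp fst) (hnn.comp fst) (hU.comp fst) snd))

lemma pt_freq (hn : PT fun p : γ × Word × List Bool => next p.1 p.2.1 p.2.2)
    (hcx : PT cx) (hθ : PT θ) (hnn : PT n) (hU : PT U) :
    PT fun d => freq (next (cx d)) (θ d) (n d) (U d) :=
  pt_nub (PT.filter (PT.filterMap (f := fun d e => qry (next (cx d)) e) hU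
    (pt_qry hn (hcx.comp fst) snd))
    (p := fun d s => decide (n d ≤ θ d * (pend (next (cx d)) s (U d)).length))
    (PT.le (hnn.comp fst) (PT.mul (hθ.comp fst)
      (PT.length (pt_pend hn (hcx.comp fst) snd (hU.comp fst))))))

lemma pt_mapNo (hG : PT G) : PT fun d => (G d).map no :=
  PT.map (f := fun _ e => no e) hG (pt_no snd)

lemma pt_blockSt (hn : PT fun p : γ × Word × List Bool => next p.1 p.2.1 p.2.2) (hq : PT q)
    (hcx : PT cx) (hℓ : PT ℓ) (hθb : PT θb) (hT : PT T) (hG : PT G) :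
    PT fun d => ((block (next (cx d)) (ℓ d) (q (cx d)) (θb d) (G d)).map
      fun G' => ((false, T d, G') : St)) :=
  PT.map (f := fun d G' => ((false, T d, G') : St)) (pt_block hn hq hcx hℓ hθb hG)
    (pair (const false) (pair (hT.comp fst) snd))

lemma pt_succT (hn : PT fun p : γ × Word × List Bool => next p.1 p.2.1 p.2.2) (hq : PT q)
    (hcx : PT cx) (hℓ : PT ℓ) (hθ : PT θ) (hθb : PT θb) (hT : PT T) (hG : PT G) :
    PT fun d => succT (next (cx d)) (ℓ d) (q (cx d)) (θ d) (θb d) (T d) (G d) := by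
  have hW := pt_waiting hn hq hcx hT hG
  refine PT.cons (pair (const true) (pair hT (pt_halted hn hq hcx hT hG)))
    (append (pt_blockSt hn hq hcx hℓ hθb hT
      (pt_mapNo (pt_rare hn hcx hθ (PT.length hG) hW))) ?_)
  refine PT.flatMap (f := fun d s => (block (next (cx d)) (ℓ d) (q (cx d)) (θb d)
    ((pend (next (cx d)) s (waiting (next (cx d)) (q (cx d)) (T d) (G d))).map no)).map
      fun G' => ((false, T d, G') : St)) (pt_freq hn hcx hθ (PT.length hG) hW) ?_
  exact pt_blockSt (δ := δ × Word) hn hq (hcx.comp fst) (hℓ.comp fst) (hθb.comp fst)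
    (hT.comp fst) (pt_mapNo (pt_pend hn (hcx.comp fst) snd (hW.comp fst)))

lemma pt_stepD (hn : PT fun p : γ × Word × List Bool => next p.1 p.2.1 p.2.2) (hq : PT q)
    {x : δ → St} (hcx : PT cx) (hℓ : PT ℓ) (hP : PT P) (hθ : PT θ) (hθb : PT θb) (hx : PT x) :
    PT fun d => stepD (next (cx d)) (ℓ d) (q (cx d)) (P d) (θ d) (θb d) (x d) := by
  refine PT.cond (fst' hx) (PT.cons hx (const [])) ?_
  refine PT.flatMap (f := fun d i => succT (next (cx d)) (ℓ d) (q (cx d)) (θ d) (θb d)
    ((grow (next (cx d)) (q (cx d)) (8 * P d) (x d).2.2)^[i] (x d).2.1) (x d).2.2)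
    (PT.range hP) ?_
  have hcx' : PT fun p : δ × ℕ => cx p.1 := hcx.comp fst
  have hG' : PT fun p : δ × ℕ => (x p.1).2.2 := snd' (snd' (hx.comp fst))
  exact pt_succT (δ := δ × ℕ) hn hq hcx' (hℓ.comp fst) (hθ.comp fst) (hθb.comp fst)
    (pt_growIter hn hq hcx' (PT.mul (const 8) (hP.comp fst)) hG' (fst' (snd' (hx.comp fst))) snd)
    hG'

lemma pt_levelD (hn : PT fun p : γ × Word × List Bool => next p.1 p.2.1 p.2.2) (hq : PT q)
    {X : δ → List St} (hcx : PT cx) (hℓ : PT ℓ) (hP : PT P) (hθ : PT θ) (hθb : PT θb) (hC : PT C)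
    (hX : PT X) :
    PT fun d => levelD (next (cx d)) (ℓ d) (q (cx d)) (P d) (θ d) (θb d) (C d) (X d) :=
  PT.take hC (PT.flatMap (f := fun d x => stepD (next (cx d)) (ℓ d) (q (cx d)) (P d) (θ d)
    (θb d) x) hX (pt_stepD hn hq (hcx.comp fst) (hℓ.comp fst) (hP.comp fst) (hθ.comp fst)
      (hθb.comp fst) snd))

end

/-! ### Sizes -/

section sizes

variable {nx : Word → List Bool → Option Word} {ℓ : ℕ}

lemma sz_le_of_mem {α : Type} [Enc α] (l : List α) (b : ℕ) (h : ∀ a ∈ l, sz a ≤ b) :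
    sz l ≤ l.length * (b + 1) := by
  induction l with
  | nil => simp
  | cons a l ih =>
    have h1 := h a List.mem_cons_self
    have h2 := ih fun a' ha' => h a' (List.mem_cons_of_mem _ ha')
    rw [sz_cons, List.length_cons, Nat.succ_mul]
    omega

lemma mem_iter_noStep {θ n : ℕ} {G : List Item} (t : ℕ) {e : Item}
    (he : e ∈ (noStep nx ℓ θ n)^[t] G) : ∃ e0 ∈ G, sz e ≤ sz e0 + t := by
  induction t generalizing e with
  | zero => exact ⟨e, he, by simp⟩
  | succ t ih =>
    rw [Function.iterate_succ_apply'] at he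
    obtain ⟨e0, he0, h1⟩ := noStep_mem he
    obtain ⟨e1, he1, h2⟩ := ih he0
    refine ⟨e1, he1, ?_⟩
    rcases h1 with ⟨_, _, rfl⟩ | ⟨_, rfl⟩
    · rw [no, sz_pair, sz_append, sz_cons, sz_lnil, sz_false]
      rw [sz_prod e0] at h2
      omega
    · omega

lemma mem_block {q θ : ℕ} {G G' : List Item} (h : G' ∈ block nx ℓ q θ G) :
    G'.length ≤ G.length ∧ ∀ e ∈ G', ∃ e0 ∈ G, sz e ≤ sz e0 + (q + 2) := by
  obtain ⟨h1, _⟩ := List.mem_filter.1 h
  rcases List.mem_cons.1 h1 with rfl | h1
  · refine ⟨(sz_iter_noStep_le nx ℓ θ G.length G q).2, fun e he => ?_⟩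
    obtain ⟨e0, he0, h2⟩ := mem_iter_noStep q he
    exact ⟨e0, he0, by omega⟩
  · obtain ⟨t, ht, h3⟩ := List.mem_flatMap.1 h1
    obtain ⟨j, _, rfl⟩ := List.mem_map.1 h3
    rw [List.mem_range] at ht
    refine ⟨?_, fun e he => ?_⟩
    · rw [List.length_map]
      exact (List.length_filter_le _ _).trans (sz_iter_noStep_le nx ℓ θ G.length G t).2
    · obtain ⟨e1, he1, rfl⟩ := List.mem_map.1 he
      obtain ⟨e0, he0, h2⟩ := mem_iter_noStep t (List.mem_filter.1 he1).1
      refine ⟨e0, he0, ?_⟩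
      rw [yesA, sz_pair, sz_append, sz_cons, sz_lnil, sz_true]
      rw [sz_prod e1] at h2
      omega

/-- size bounds for a state -/
def BdD (n L t : ℕ) (x : St) : Prop :=
  x.2.2.length ≤ n ∧ (∀ e ∈ x.2.2, sz e ≤ L) ∧ sz x.2.1 ≤ t

lemma BdD.mono {n L t L' t' : ℕ} {x : St} (h : BdD n L t x) (hL : L ≤ L') (ht : t ≤ t') :
    BdD n L' t' x := ⟨h.1, fun e he => (h.2.1 e he).trans hL, h.2.2.trans ht⟩

lemma sz_of_BdD {n L t : ℕ} {x : St} (h : BdD n L t x) : sz x ≤ t + n * (L + 1) + 3 := by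
  obtain ⟨h1, h2, h3⟩ := h
  have h4 := sz_le_of_mem x.2.2 L h2
  have h5 : x.2.2.length * (L + 1) ≤ n * (L + 1) := Nat.mul_le_mul_right _ h1
  have h6 := sz_bool_le x.1
  rw [sz_prod x, sz_prod x.2]
  omega

lemma sz_adv_le (q : ℕ) (T : List Word) (e : Item) : sz (adv nx q T e) ≤ sz e + 2 * q :=
  sz_iter_le _ _ _ _

lemma bd_succT {q θ θb n L t : ℕ} {T : List Word} {G : List Item} (hn : G.length ≤ n)
    (hL : ∀ e ∈ G, sz e ≤ L) (ht : sz T ≤ t) {y : St} (hy : y ∈ succT nx ℓ q θ θb T G) :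
    BdD n (L + (3 * q + 3)) t y := by
  have hW : ∀ e ∈ waiting nx q T G, sz e ≤ L + 2 * q := by
    intro e he
    obtain ⟨e0, he0, rfl⟩ := mem_waiting he
    have := sz_adv_le (nx := nx) q T e0
    have := hL e0 he0
    omega
  have hWn := length_waiting_le (next := nx) q T G
  have hblk : ∀ W : List Item, W.length ≤ (waiting nx q T G).length →
      (∀ e ∈ W, e ∈ waiting nx q T G) → ∀ G' ∈ block nx ℓ q θb (W.map no),
      BdD n (L + (3 * q + 3)) t (false, T, G') := by
    intro W hWl hWm G' hG'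
    obtain ⟨h1, h2⟩ := mem_block hG'
    rw [List.length_map] at h1
    refine ⟨by show G'.length ≤ n; omega, fun e he => ?_, ht⟩
    obtain ⟨e0, he0, h3⟩ := h2 e he
    obtain ⟨e1, he1, rfl⟩ := List.mem_map.1 he0
    have h4 := hW e1 (hWm e1 he1)
    have h5 : sz (no e1) = sz e1 + 1 := by
      rw [no, sz_pair, sz_append, sz_cons, sz_lnil, sz_false, sz_prod e1]
      omega
    omega
  rcases List.mem_cons.1 hy with rfl | hy
  · have hlen := length_halted_add (next := nx) q T G
    refine ⟨by show (halted nx q T G).length ≤ n; omega, fun e he => ?_, ht⟩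
    obtain ⟨e0, he0, rfl, _⟩ := mem_halted he
    have := sz_adv_le (nx := nx) q T e0
    have := hL e0 he0
    omega
  · rcases List.mem_append.1 hy with hy | hy
    · obtain ⟨G', hG', rfl⟩ := List.mem_map.1 hy
      exact hblk _ (List.length_filter_le _ _) (fun e he => (List.mem_filter.1 he).1) G' hG'
    · obtain ⟨s, _, hy⟩ := List.mem_flatMap.1 hy
      obtain ⟨G', hG', rfl⟩ := List.mem_map.1 hy
      exact hblk _ (List.length_filter_le _ _) (fun e he => (List.mem_filter.1 he).1) G' hG'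

lemma sz_growIter_le {q θ M : ℕ} {G : List Item} {T : List Word}
    (h : ∀ (T' : List Word), ∀ e ∈ waiting nx q T' G, ∀ s, qry nx e = some s → sz s ≤ M) (i : ℕ) :
    sz ((grow nx q θ G)^[i] T) ≤ sz T + i * (M + 1) := by
  induction i with
  | zero => simp
  | succ i ih =>
    rw [Function.iterate_succ_apply']
    refine (sz_grow_le (h _)).trans ?_
    rw [Nat.succ_mul]
    omega

lemma bd_levelD {q P θ θb C n L t M i : ℕ} {X : List St} (hX : ∀ x ∈ X, BdD n L t x)
    (hM : ∀ e : Item, sz e ≤ L + i * (3 * q + 3) + 2 * q → ∀ s, qry nx e = some s → sz s ≤ M) :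
    ∀ y ∈ (levelD nx ℓ q P θ θb C)^[i] X,
      BdD n (L + i * (3 * q + 3)) (t + i * (P * (M + 1))) y := by
  induction i with
  | zero => simpa using hX
  | succ i ih =>
    have hle : L + i * (3 * q + 3) ≤ L + (i + 1) * (3 * q + 3) :=
      Nat.add_le_add_left (Nat.mul_le_mul_right _ (Nat.le_succ i)) L
    have ih' := ih fun e he => hM e (by omega)
    intro y hy
    rw [Function.iterate_succ_apply'] at hy
    obtain ⟨x, hx, hy⟩ := List.mem_flatMap.1 (List.mem_of_mem_take hy)
    obtain ⟨h1, h2, h3⟩ := ih' x hx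
    unfold stepD at hy
    cases h : x.1
    · rw [h, cond_false] at hy
      obtain ⟨j, hj, hy⟩ := List.mem_flatMap.1 hy
      rw [List.mem_range] at hj
      have h4 : sz ((grow nx q (8 * P) x.2.2)^[j] x.2.1) ≤
          t + (i + 1) * (P * (M + 1)) := by
        refine (sz_growIter_le (M := M) (fun T' e he s hs => ?_) j).trans ?_
        · obtain ⟨e0, he0, rfl⟩ := mem_waiting he
          refine hM _ ?_ s hs
          have := sz_adv_le (nx := nx) q T' e0
          have := h2 e0 he0
          omega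
        · have h5 : j * (M + 1) ≤ P * (M + 1) := Nat.mul_le_mul_right _ hj.le
          calc sz x.2.1 + j * (M + 1) ≤ t + i * (P * (M + 1)) + P * (M + 1) :=
                Nat.add_le_add h3 h5
            _ = t + (i + 1) * (P * (M + 1)) := by ring
      have h6 := bd_succT h1 h2 h4 hy
      refine h6.mono (le_of_eq ?_) le_rfl
      ring
    · rw [h, cond_true, List.mem_singleton] at hy
      subst hy
      refine BdD.mono ⟨h1, h2, h3⟩ hle ?_
      exact Nat.add_le_add_left (Nat.mul_le_mul_right _ (Nat.le_succ i)) t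

end sizes

/-- The search for collections is a polynomial-time function. -/
theorem pt_searchD (hn : PT fun p : γ × Word × List Bool => next p.1 p.2.1 p.2.2) (hq : PT q)
    {ℓ P θ θb C κ : γ → ℕ} (hℓ : PT ℓ) (hP : PT P) (hθ : PT θ) (hθb : PT θb) (hC : PT C)
    (hκ : PT κ) :
    PT fun p : γ × List Word =>
      searchD (next p.1) (ℓ p.1) (q p.1) (P p.1) (θ p.1) (θb p.1) (C p.1) (κ p.1) p.2 := by
  have hinit : PT fun p : γ × List Word =>
      ([(false, [], p.2.map fun r => (r, []))] : List St) :=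
    PT.cons (pair (const false) (pair (const []) (PT.map (f := fun _ r => ((r, []) : Item)) snd
      (pair snd (const []))))) (const [])
  have hiter : PT fun p : γ × List Word =>
      (levelD (next p.1) (ℓ p.1) (q p.1) (P p.1) (θ p.1) (θb p.1) (C p.1))^[κ p.1]
        [(false, [], p.2.map fun r => (r, []))] := by
    refine iterate (f := fun (p : γ × List Word) X =>
      levelD (next p.1) (ℓ p.1) (q p.1) (P p.1) (θ p.1) (θb p.1) (C p.1) X) (hκ.comp fst)
      hinit ?_ ?_
    · exact pt_levelD (δ := (γ × List Word) × List St) hn hq (fst' fst) (hℓ.comp (fst' fst))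
        (hP.comp (fst' fst)) (hθ.comp (fst' fst)) (hθb.comp (fst' fst)) (hC.comp (fst' fst)) snd
    · obtain ⟨kn, hkn⟩ := hn.size_le
      obtain ⟨kq, hkq⟩ := hq.size_le
      obtain ⟨kP, hkP⟩ := hP.size_le
      obtain ⟨kC, hkC⟩ := hC.size_le
      obtain ⟨kκ, hkκ⟩ := hκ.size_le
      simp only [sz_nat] at hkq hkP hkC hkκ
      have hPBq : PB fun s => (s + 2) ^ kq := ⟨kq, fun n => le_rfl⟩
      have hPBP : PB fun s => (s + 2) ^ kP := ⟨kP, fun n => le_rfl⟩
      have hPBC : PB fun s => (s + 2) ^ kC := ⟨kC, fun n => le_rfl⟩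
      have hPBκ : PB fun s => (s + 2) ^ kκ := ⟨kκ, fun n => le_rfl⟩
      have hL : PB fun s => s + 1 + (s + 2) ^ kκ * (3 * (s + 2) ^ kq + 3) :=
        PB.add (PB.add PB.id (PB.const 1)) (PB.mul hPBκ (PB.add (PB.mul (PB.const 3) hPBq)
          (PB.const 3)))
      have hM : PB fun s => (s + (s + 1 + (s + 2) ^ kκ * (3 * (s + 2) ^ kq + 3) +
          2 * (s + 2) ^ kq) + 1 + 2) ^ kn :=
        PB.pow (PB.add (PB.add (PB.add PB.id (PB.add hL (PB.mul (PB.const 2) hPBq)))
          (PB.const 1)) (PB.const 2)) kn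
      obtain ⟨e, he⟩ := PB.mul (PB.add hPBC (PB.const 1)) (PB.add (PB.add (PB.add
        (PB.mul hPBκ (PB.mul hPBP (PB.add hM (PB.const 1))))
        (PB.mul PB.id (PB.add hL (PB.const 1)))) (PB.const 3)) (PB.const 1))
      refine ⟨e, fun p i hi => le_trans ?_ (he (sz p))⟩
      obtain ⟨c, R⟩ := p
      obtain ⟨s, hs⟩ : ∃ s, s = sz (c, R) := ⟨_, rfl⟩
      simp only at hi ⊢
      rw [← hs]
      have hcs : sz c + 2 ≤ s + 2 := by rw [hs, sz_pair]; omega
      have hRs : sz R ≤ s := by rw [hs, sz_pair]; omega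
      have h1 : q c ≤ (s + 2) ^ kq := (hkq c).trans (Nat.pow_le_pow_left hcs kq)
      have h2 : P c ≤ (s + 2) ^ kP := (hkP c).trans (Nat.pow_le_pow_left hcs kP)
      have h3 : C c ≤ (s + 2) ^ kC := (hkC c).trans (Nat.pow_le_pow_left hcs kC)
      have h4 : i ≤ (s + 2) ^ kκ := hi.trans ((hkκ c).trans (Nat.pow_le_pow_left hcs kκ))
      have h5 : s + 1 + i * (3 * q c + 3) ≤
          s + 1 + (s + 2) ^ kκ * (3 * (s + 2) ^ kq + 3) :=
        Nat.add_le_add_left (Nat.mul_le_mul h4 (by omega)) _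
      have hbd := bd_levelD (nx := next c) (ℓ := ℓ c) (q := q c) (P := P c) (θ := θ c)
        (θb := θb c) (C := C c) (n := s) (L := s + 1) (t := 0) (i := i)
        (M := (s + (s + 1 + (s + 2) ^ kκ * (3 * (s + 2) ^ kq + 3) +
          2 * (s + 2) ^ kq) + 1 + 2) ^ kn)
        (X := [(false, [], R.map fun r => (r, []))]) (by
          intro x hx
          rw [List.mem_singleton] at hx
          subst hx
          refine ⟨?_, ?_, by simp⟩
          · show (R.map fun r => ((r, []) : Item)).length ≤ s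
            rw [List.length_map]
            exact (length_le_sz R).trans hRs
          · intro e he
            obtain ⟨r, hr, rfl⟩ := List.mem_map.1 he
            have := sz_mem_le hr
            rw [sz_pair, sz_lnil]
            omega) (by
          intro e he w hw
          have h6 := hkn (c, e.1, e.2)
          simp only [sz_pair] at h6
          unfold qry at hw
          rw [hw, sz_some] at h6
          have h7 : (sz c + (sz e.1 + sz e.2 + 1) + 1 + 2) ^ kn ≤
              (s + (s + 1 + (s + 2) ^ kκ * (3 * (s + 2) ^ kq + 3) +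
                2 * (s + 2) ^ kq) + 1 + 2) ^ kn := by
            refine Nat.pow_le_pow_left ?_ kn
            rw [sz_prod e] at he
            omega
          omega)
      -- the number of states
      have hlen : ((levelD (next c) (ℓ c) (q c) (P c) (θ c) (θb c) (C c))^[i]
          [(false, [], R.map fun r => (r, []))]).length ≤ C c + 1 := by
        rcases i with _ | i
        · simp
        · rw [Function.iterate_succ_apply']
          unfold levelD
          exact (List.length_take_le _ _).trans (Nat.le_succ _)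
      refine (sz_le_of_mem _ _ fun x hx => sz_of_BdD (hbd x hx)).trans ?_
      refine Nat.mul_le_mul (hlen.trans (Nat.add_le_add_right h3 1)) ?_
      refine Nat.add_le_add_right (Nat.add_le_add_right (Nat.add_le_add ?_ ?_) 3) 1
      · rw [Nat.zero_add]
        exact Nat.mul_le_mul h4 (Nat.mul_le_mul_right _ h2)
      · exact Nat.mul_le_mul_left _ (Nat.add_le_add_right h5 1)
  refine PT.filter (p := fun (p : γ × List Word) G => decide (p.2.length ≤ C p.1 * G.length))
    (PT.map (f := fun (p : γ × List Word) (x : St) => x.2.2.map (yes (next p.1) (q p.1)))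
      hiter ?_) ?_
  · exact PT.map (f := fun (r : (γ × List Word) × St) e => yes (next r.1.1) (q r.1.1) e)
      (snd' (snd' snd)) (pt_yes hn hq (fst' (fst' fst)) snd)
  · exact PT.le (PT.length (snd' fst)) (PT.mul (hC.comp (fst' fst)) (PT.length snd))

lemma pt_numD {ℓ q P θ : δ → ℕ} (hℓ : PT ℓ) (hq : PT q) (hP : PT P) (hθ : PT θ) :
    PT fun d => numD (ℓ d) (q d) (P d) (θ d) :=
  PT.mul hP (PT.add (const 1) (PT.mul (PT.add (const 1) hθ) (PT.succ (PT.mul hq (PT.succ hℓ)))))

end Pool.Agent.Lib.MP_634427_lc.KNo
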