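import Pool.Agent.Lib.MP_634427_lc.LT.Weighted
import Pool.Agent.Lib.MP_634427_lc.Deep.Correct
import Pool.Agent.Lib.MP_634427_lc.Deep.PT

/-!
# Candidate lists from votes after an adaptive phase with many blocks of negative answers
-/

namespace Pool.Agent.Lib.MP_634427_lc

open BT KNo Hyb

/-- powers with a cap -/
def cpow (C b n : ℕ) : ℕ := (fun r => min (b * r) C)^[n] 1

lemma cpow_succ (C b n : ℕ) : cpow C b (n + 1) = min (b * cpow C b n) C := by
  unfold cpow
  rw [Function.iterate_succ_apply']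

lemma cpow_eq {C b n : ℕ} (hb : 1 ≤ b) (h : b ^ n ≤ C) : cpow C b n = b ^ n := by
  induction n with
  | zero => rfl
  | succ n ih =>
    have h1 : b ^ n ≤ C := le_trans (Nat.pow_le_pow_right hb (by omega)) h
    rw [cpow_succ, ih h1]
    rw [pow_succ, mul_comm] at h
    rw [Nat.min_eq_left h, pow_succ, mul_comm]

lemma cpow_le (C b n : ℕ) : cpow C b n ≤ C + 1 := by
  cases n with
  | zero => simp [cpow]
  | succ n => rw [cpow_succ]; exact (Nat.min_le_right _ _).trans (Nat.le_succ _)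

lemma PT.cpow {γ : Type} [Enc γ] {C b n : γ → ℕ} (hC : PT C) (hb : PT b) (hn : PT n) :
    PT fun c => MP_634427_lc.cpow (C c) (b c) (n c) := by
  refine PT.iterate (f := fun c (r : ℕ) => Min.min (b c * r) (C c)) hn (PT.const 1)
    (PT.min (PT.mul (hb.comp PT.fst) PT.snd) (hC.comp PT.fst)) ?_
  obtain ⟨k, hk⟩ := hC.size_le
  obtain ⟨e, he⟩ := PB.add (F := fun n => (n + 2) ^ k) ⟨k, fun n => le_rfl⟩ (PB.const 1)
  refine ⟨e, fun c i _ => ?_⟩
  have h1 := hk c
  rw [sz_nat] at h1 ⊢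
  have h2 : (fun r => Min.min (b c * r) (C c))^[i] 1 ≤ C c + 1 := cpow_le (C c) (b c) i
  exact h2.trans ((Nat.add_le_add_right h1 1).trans (he (sz c)))

/-- The collections, as a polynomial-time function. -/
theorem exists_colls {α : Type} [Enc α] {next : α → Word → List Bool → Option Word}
    {q ℓ P θb E κ : α → ℕ} (hnext : PT fun p : α × Word × List Bool => next p.1 p.2.1 p.2.2)
    (hq : PT q) (hℓ : PT ℓ) (hP : PT P) (hθb : PT θb) (hE : PT E) (hκ : PT κ)
    (hP0 : ∀ a, 0 < P a) (hθb2 : ∀ a, 2 ≤ θb a) (hθbq : ∀ a, 2 * (q a * (ℓ a + 1)) ≤ θb a)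
    (hE1 : ∀ a, 1 ≤ E a) :
    ∃ (colls : α × ℕ → List Word → List (List Item)) (e₀ : ℕ),
      (PT fun p : (α × ℕ) × List Word => colls p.1 p.2) ∧
      (∀ p R, (colls p R).length ≤ p.2 + 1) ∧
      (∀ p R, ∀ G ∈ colls p R, Shape R G ∧ R.length ≤ p.2 * G.length) ∧
      ∀ a C (S : Set Word) R, (sz a + 2) ^ (e₀ * (κ a + 1) ^ 2) ≤ C →
        RedT (next a) S R (q a) (κ a) →
        (∀ r ∈ R, ∀ tr s, Good (next a) S (r, tr) → next a r tr = some s → s.length ≤ ℓ a) →
        (∀ L : List Word, L.Nodup → (∀ s ∈ L, s ∈ S ∧ s ∈ Rel (next a) S R) → L.length < P a) →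
        0 < R.length →
        ∃ G ∈ colls (a, C) R, 0 < G.length ∧ E a * bad (next a) S G ≤ G.length ∧
          (∀ e ∈ G, e.1 ∈ R) ∧ ∀ e ∈ G, Good (next a) S e → next a e.1 e.2 = none := by
  have hA : PT fun a => 8 * P a * θb a := PT.mul (PT.mul (PT.const 8) hP) hθb
  have hA1 : ∀ a, 1 ≤ 8 * P a * θb a := fun a => Nat.mul_pos (Nat.mul_pos (by omega) (hP0 a))
    (by have := hθb2 a; omega)
  have hθ : PT fun p : α × ℕ => E p.1 * cpow p.2 (8 * P p.1 * θb p.1) (κ p.1) :=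
    PT.mul (hE.comp PT.fst) (PT.cpow PT.snd (hA.comp PT.fst) (hκ.comp PT.fst))
  obtain ⟨k1, hk1⟩ := hE.size_le
  obtain ⟨k2, hk2⟩ := hA.size_le
  obtain ⟨k3, hk3⟩ := (PT.mul hP (PT.mul (PT.const 3) (PT.succ (PT.mul hq (PT.succ hℓ))))).size_le
  obtain ⟨k4, hk4⟩ := hθb.size_le
  simp only [sz_nat] at hk1 hk2 hk3 hk4
  refine ⟨fun p R => searchD (next p.1) (ℓ p.1) (q p.1) (P p.1)
    (E p.1 * cpow p.2 (8 * P p.1 * θb p.1) (κ p.1)) (θb p.1) p.2 (κ p.1) R,
    k1 + k2 + k3 + k4, ?_, fun p R => length_searchD _ _ _ _ _ _ _,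
    fun p R G hG => shape_searchD hG, ?_⟩
  · have hn' : PT fun p : (α × ℕ) × Word × List Bool => next p.1.1 p.2.1 p.2.2 :=
      hnext.comp (PT.pair (PT.fst' PT.fst) PT.snd)
    exact pt_searchD (γ := α × ℕ) (next := fun p => next p.1) (q := fun p => q p.1)
      (ℓ := fun p => ℓ p.1) (P := fun p => P p.1)
      (θ := fun p => E p.1 * cpow p.2 (8 * P p.1 * θb p.1) (κ p.1)) (θb := fun p => θb p.1)
      (C := fun p => p.2) (κ := fun p => κ p.1) hn'
      (hq.comp PT.fst) (hℓ.comp PT.fst) (hP.comp PT.fst) hθ (hθb.comp PT.fst) PT.snd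
      (hκ.comp PT.fst)
  intro a C S R hC hred hql hS hR
  obtain ⟨s, hs⟩ : ∃ s, s = sz a + 2 := ⟨_, rfl⟩
  have hs2 : 2 ≤ s := by omega
  rw [← hs] at hC
  have hCle : ∀ x, x ≤ (k1 + k2 + k3 + k4) * (κ a + 1) ^ 2 → s ^ x ≤ C := fun x hx =>
    (Nat.pow_le_pow_right (by omega) hx).trans hC
  obtain ⟨A, hAdef⟩ : ∃ A, A = 8 * P a * θb a := ⟨_, rfl⟩
  have hA1' : 1 ≤ A := by rw [hAdef]; exact hA1 a
  have hAs : A ≤ s ^ k2 := by rw [hAdef, hs]; exact hk2 a
  have hAκ : A ^ κ a ≤ s ^ (k2 * κ a) := by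
    rw [pow_mul]
    exact Nat.pow_le_pow_left hAs _
  obtain ⟨θ, hθdef⟩ : ∃ θ, θ = E a * cpow C (8 * P a * θb a) (κ a) := ⟨_, rfl⟩
  have hθeq : θ = E a * A ^ κ a := by
    rw [hθdef, ← hAdef, cpow_eq hA1']
    refine hAκ.trans (hCle _ ?_)
    exact Nat.mul_le_mul (by omega) (by nlinarith)
  have hθle : θ ≤ s ^ (k1 + k2 * κ a) := by
    rw [hθeq, pow_add]
    exact Nat.mul_le_mul (by rw [hs]; exact hk1 a) hAκ
  have hθ1 : 1 ≤ θ := by
    rw [hθeq]
    exact Nat.mul_pos (hE1 a) (Nat.pow_pos hA1')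
  have hC1 : numD (ℓ a) (q a) (P a) θ ^ κ a ≤ C := by
    have h1 : numD (ℓ a) (q a) (P a) θ ≤ s ^ (k3 + (k1 + k2 * κ a)) := by
      rw [pow_add]
      have h2 : numD (ℓ a) (q a) (P a) θ ≤ P a * (3 * (q a * (ℓ a + 1) + 1)) * θ := by
        unfold numD
        have h3 : 1 + (1 + θ) * (q a * (ℓ a + 1) + 1) ≤ 3 * (q a * (ℓ a + 1) + 1) * θ := by
          have h4 : 1 + (1 + θ) * (q a * (ℓ a + 1) + 1) ≤
              (1 + (1 + θ)) * (q a * (ℓ a + 1) + 1) := by
            rw [Nat.add_mul 1 (1 + θ)]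
            have : 1 ≤ 1 * (q a * (ℓ a + 1) + 1) := by omega
            omega
          refine h4.trans ?_
          calc (1 + (1 + θ)) * (q a * (ℓ a + 1) + 1)
              ≤ (3 * θ) * (q a * (ℓ a + 1) + 1) := Nat.mul_le_mul_right _ (by omega)
            _ = _ := by ring
        calc P a * (1 + (1 + θ) * (q a * (ℓ a + 1) + 1))
            ≤ P a * (3 * (q a * (ℓ a + 1) + 1) * θ) := Nat.mul_le_mul_left _ h3
          _ = _ := by ring
      refine h2.trans (Nat.mul_le_mul ?_ hθle)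
      rw [hs]
      exact hk3 a
    refine (Nat.pow_le_pow_left h1 (κ a)).trans ?_
    rw [← pow_mul]
    refine hCle _ ?_
    have h3 : k2 * κ a ≤ (k1 + k2 + k3 + k4) * κ a := Nat.mul_le_mul_right _ (by omega)
    calc (k3 + (k1 + k2 * κ a)) * κ a ≤ ((k1 + k2 + k3 + k4) * (κ a + 1)) * (κ a + 1) :=
          Nat.mul_le_mul (by rw [Nat.mul_succ]; omega) (by omega)
      _ = _ := by ring
  have hC2 : (θ * θb a) ^ κ a ≤ C := by
    have h1 : θ * θb a ≤ s ^ (k1 + k2 * κ a + k4) := by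
      rw [pow_add]
      exact Nat.mul_le_mul hθle (by rw [hs]; exact hk4 a)
    refine (Nat.pow_le_pow_left h1 (κ a)).trans ?_
    rw [← pow_mul]
    refine hCle _ ?_
    have h3 : k2 * κ a ≤ (k1 + k2 + k3 + k4) * κ a := Nat.mul_le_mul_right _ (by omega)
    calc (k1 + k2 * κ a + k4) * κ a ≤ ((k1 + k2 + k3 + k4) * (κ a + 1)) * (κ a + 1) :=
          Nat.mul_le_mul (by rw [Nat.mul_succ]; omega) (by omega)
      _ = _ := by ring
  have := exists_searchD (next := next a) (C := C) (θ := θ) (θb := θb a) (E := E a) (P := P a)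
    hred hql (hP0 a) (hθbq a) (hθb2 a) (hE1 a) hS (by rw [← hAdef]; exact hθeq.ge) hC1 hC2 hR
  rw [hθdef] at this
  exact this

/-- The core of the algorithm, with many blocks of negative answers. -/
theorem exists_cands_deep (S : Set Word) (k : ℕ) {α : Type} [Enc α] (m' : α → ℕ) (hm' : PT m')
    (next : α → Word → List Bool → Option Word) (vec : α → Word → List Bool → List LT.Vote)
    (q P Q κ : α → ℕ) (hnext : PT fun p : α × Word × List Bool => next p.1 p.2.1 p.2.2)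
    (hvec : PT fun p : α × Word × List Bool => vec p.1 p.2.1 p.2.2) (hq : PT q) (hP : PT P)
    (hQ : PT Q) (hκ : PT κ) :
    ∃ (cand : α × ℕ → List Word) (e₀ : ℕ), PT cand ∧ ∀ a C u,
      (sz a + 2) ^ (e₀ * (κ a + 1) ^ 2) ≤ C → u.length = m' a →
      (∀ Ls : List Word, Ls.Nodup → (∀ s ∈ Ls, s ∈ S ∧ ∃ r tr, r.length ≤ m' a ∧
        Good (next a) S (r, tr) ∧ next a r tr = some s) → Ls.length < P a) →
      (∃ T : Finset (List Word), T.card ≤ Q a ∧ ∀ r tr, r.length ≤ m' a →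
        Good (next a) S (r, tr) → next a r tr = none → ∀ e ∈ vec a r tr,
          (e.2.length ≤ k ∧ ∀ w ∈ e.2, onlyZeros w = true) ∨
            (e.1.2 = [true] ∧ ((∀ w ∈ e.2, w ∈ S) ↔ e.2 ∈ T))) →
      (∀ r, r.length ≤ m' a → ∀ tr, Good (next a) S (r, tr) →
        tr.length ≤ q a ∧ turns (next a) (r, tr) ≤ κ a ∧
          (next a r tr = none → (par r u = true ↔ 0 < votes S (vec a r tr)))) →
      u ∈ cand (a, C) := by
  -- the size of the queries and of the vectors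
  obtain ⟨ℓ, hℓ, hℓn, hℓv⟩ : ∃ ℓ : α → ℕ, PT ℓ ∧
      (∀ a r tr, r.length ≤ m' a → tr.length ≤ q a → sz (next a r tr) ≤ ℓ a) ∧
      (∀ a r tr, r.length ≤ m' a → tr.length ≤ q a → sz (vec a r tr) ≤ ℓ a) := by
    obtain ⟨kn, hkn⟩ := hnext.size_le
    obtain ⟨kv, hkv⟩ := hvec.size_le
    refine ⟨fun a => (sz a + (2 * m' a + 2 * q a + 1) + 1 + 2) ^ (kn + kv),
      PT.pow (PT.add (PT.succ (PT.add (PT.size PT.id) (PT.succ (PT.add
      (PT.mul (PT.const 2) hm') (PT.mul (PT.const 2) hq))))) (PT.const 2)) (kn + kv), ?_, ?_⟩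
    · intro a r tr hr htr
      have h3 := hkn (a, r, tr)
      simp only [sz_pair] at h3
      have h4 := sz_word_le r
      have h5 := sz_word_le tr
      have h8 : (sz a + (sz r + sz tr + 1) + 1 + 2) ^ kn
          ≤ (sz a + (2 * m' a + 2 * q a + 1) + 1 + 2) ^ (kn + kv) :=
        (Nat.pow_le_pow_left (by omega) kn).trans (Nat.pow_le_pow_right (by omega) (by omega))
      exact h3.trans h8
    · intro a r tr hr htr
      have h3 := hkv (a, r, tr)
      simp only [sz_pair] at h3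
      have h4 := sz_word_le r
      have h5 := sz_word_le tr
      have h8 : (sz a + (sz r + sz tr + 1) + 1 + 2) ^ kv
          ≤ (sz a + (2 * m' a + 2 * q a + 1) + 1 + 2) ^ (kn + kv) :=
        (Nat.pow_le_pow_left (by omega) kv).trans (Nat.pow_le_pow_right (by omega) (by omega))
      exact h3.trans h8
  -- the fingerprints
  obtain ⟨pr, hpr, hprp, hprbig⟩ : ∃ pr : α → ℕ, PT pr ∧ (∀ a, (pr a).Prime) ∧
      ∀ a, 2 * (ℓ a * (Q a * (2 * ℓ a + 1))) < pr a :=
    ⟨fun a => LT.nextPrime (2 * (ℓ a * (Q a * (2 * ℓ a + 1)))),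
      PT.nextPrime (PT.mul (PT.const 2) (PT.mul hℓ (PT.mul hQ
        (PT.succ (PT.mul (PT.const 2) hℓ))))), fun a => LT.nextPrime_prime _,
      fun a => LT.lt_nextPrime _⟩
  -- the vectors
  obtain ⟨vt, hvt, hvtdef⟩ : ∃ vt : α → Item → List LT.Num,
      (PT fun p : α × Item => vt p.1 p.2) ∧
      ∀ a e, vt a e = LT.wvec (ℓ a) k (pr a) (vec a e.1 e.2) :=
    ⟨fun a e => LT.wvec (ℓ a) k (pr a) (vec a e.1 e.2),
      PT.wvec (hℓ.comp PT.fst) k (hpr.comp PT.fst) (fun p => (hprp p.1).pos) hvec,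
      fun _ _ => rfl⟩
  obtain ⟨md, hmd, hmddef, hmd0⟩ : ∃ md : α → ℕ, PT md ∧
      (∀ a, md a = LT.wdim (ℓ a) k (pr a)) ∧ ∀ a, 0 < md a :=
    ⟨fun a => LT.wdim (ℓ a) k (pr a), PT.wdim hℓ k hpr, fun _ => rfl, fun a => Nat.succ_pos _⟩
  -- the pruning procedure
  obtain ⟨colls, e₀, hcolls, hclen, hcshape, hcex⟩ := exists_colls (next := next) (q := q)
    (ℓ := ℓ) (P := fun a => P a + 1) (θb := fun a => 2 * (q a * (ℓ a + 1)) + 2)
    (E := fun a => 24 * md a) (κ := κ) hnext hq hℓ (PT.succ hP)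
    (PT.add (PT.mul (PT.const 2) (PT.mul hq (PT.succ hℓ))) (PT.const 2))
    (PT.mul (PT.const 24) hmd) hκ (fun a => Nat.succ_pos _) (fun a => Nat.le_add_left _ _)
    (fun a => Nat.le_add_right _ 2) (fun a => by have := hmd0 a; omega)
  obtain ⟨K, hK, hKdef⟩ : ∃ K : α × ℕ → ℕ, PT K ∧
      ∀ p, K p = (p.2 + 1) * (24 * md p.1 ^ 2 * p.2) :=
    ⟨fun p => (p.2 + 1) * (24 * md p.1 ^ 2 * p.2), PT.mul (PT.succ PT.snd)
      (PT.mul (PT.mul (PT.const 24) (PT.pow (hmd.comp PT.fst) 2)) PT.snd), fun _ => rfl⟩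
  obtain ⟨srch, hsrch, hsrchdef⟩ : ∃ srch : α × ℕ → List Word → List Word → List Word,
      (PT fun p : (α × ℕ) × List Word × List Word => srch p.1 p.2.1 p.2.2) ∧
      ∀ p R B, srch p R B =
        (colls p R).flatMap fun G => LT.isoAgree (md p.1) (vt p.1) B G := by
    refine ⟨fun p R B => (colls p R).flatMap fun G => LT.isoAgree (md p.1) (vt p.1) B G, ?_,
      fun _ _ _ => rfl⟩
    have hvt' : PT fun p : (α × ℕ) × Item => vt p.1.1 p.2 :=
      PT.comp (f := fun p : α × Item => vt p.1 p.2)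
        (g := fun p : (α × ℕ) × Item => (p.1.1, p.2)) hvt (PT.pair (PT.fst' PT.fst) PT.snd)
    exact pt_srch (α := α × ℕ) (colls := colls) (vt := fun p => vt p.1)
      (md := fun p => md p.1) hcolls hvt' (hmd.comp PT.fst)
  let prune : α × ℕ → List Word → List Word → List Word := fun p R B =>
    bif R.isEmpty then B else B.filter fun w => decide (w ∈ srch p R B)
  have hprunePT : PT fun p : (α × ℕ) × List Word × List Word => prune p.1 p.2.1 p.2.2 := by
    refine PT.cond (PT.isEmpty (PT.fst' PT.snd)) (PT.snd' PT.snd) ?_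
    refine PT.filter (PT.snd' PT.snd) (p := fun (p : (α × ℕ) × List Word × List Word) w =>
      decide (w ∈ srch p.1 p.2.1 p.2.2)) ?_
    exact PT.memWord PT.snd (hsrch.comp PT.fst)
  have hIsPrune : ∀ p : α × ℕ, Frame.IsPrune (prune p) (K p) (m' p.1) := by
    intro p
    refine ⟨?_, ?_, ?_⟩
    · intro R B w hw
      rcases R with _ | ⟨r, R⟩
      · exact hw
      · exact List.mem_of_mem_filter hw
    · intro R B hB
      rcases R with _ | ⟨r, R⟩
      · exact hB
      · exact hB.filter _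
    · intro R B hB hR horth _
      have hRpos : 0 < R.length := List.length_pos_of_ne_nil hR
      have hpr' : prune p R B = B.filter fun w => decide (w ∈ srch p R B) := by
        rcases R with _ | ⟨r, R⟩
        · exact absurd rfl hR
        · rfl
      have h1 : (srch p R B).length ≤ K p := by
        rw [hsrchdef, hKdef]
        refine (length_flatMap_le _ _ (24 * md p.1 ^ 2 * p.2) fun G hG => ?_).trans
          (Nat.mul_le_mul_right _ (hclen p R))
        obtain ⟨h2, h3⟩ := hcshape p R G hG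
        exact LT.length_isoAgree hB horth h2 hRpos h3
      refine le_trans ?_ h1
      have h2 : (prune p R B).Nodup := by rw [hpr']; exact hB.filter _
      exact (List.subperm_of_subset h2 fun w hw => by
        rw [hpr'] at hw
        simpa using (List.mem_filter.1 hw).2).length_le
  obtain ⟨cand, hcand, hc⟩ := Frame.exists_candidates (hm'.comp PT.fst) prune K hprunePT hK
    hIsPrune
  refine ⟨cand, e₀, hcand, fun a C u hC hu hLs hT hrun => hc (a, C) u hu ?_⟩
  obtain ⟨T, hTQ, hT⟩ := hT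
  intro R B j hj hRj huB
  rcases R.eq_nil_or_concat with hR0 | ⟨R0, r0, hR0⟩
  · subst hR0
    exact huB
  have hRpos : 0 < R.length := by rw [hR0]; simp
  have hpr' : prune (a, C) R B = B.filter fun w => decide (w ∈ srch (a, C) R B) := by
    rcases R with _ | ⟨r, R⟩
    · simp at hRpos
    · rfl
  rw [hpr']
  refine List.mem_filter.2 ⟨huB, ?_⟩
  rw [decide_eq_true_eq]
  have hj' : j ≤ m' a := hj
  have hpar : ∀ r ∈ R, par r (u.take j) = par r u := by
    intro r hr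
    conv_rhs => rw [← List.take_append_drop j u]
    rw [par_append_of_le]
    rw [List.length_take, hu]
    exact le_min (hRj r hr) ((hRj r hr).trans hj')
  have hRm : ∀ r ∈ R, r.length ≤ m' a := fun r hr => (hRj r hr).trans hj'
  -- the bundles of bounded size
  let T' : Finset (List Word) := T.filter fun κ => sz κ ≤ ℓ a
  have hT'Q : T'.card ≤ Q a := (Finset.card_filter_le _ _).trans hTQ
  have hTcd : ∀ κ ∈ T', (LT.cd κ).length ≤ 2 * ℓ a + 1 := by
    intro κ hκ
    have h1 := (Finset.mem_filter.1 hκ).2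
    rw [LT.length_cd]
    omega
  have hredT : RedT (next a) S R (q a) (κ a) :=
    ⟨fun r hr tr h => (hrun r (hRm r hr) tr h).1, fun r hr tr h => (hrun r (hRm r hr) tr h).2.1⟩
  have hqlen : ∀ r ∈ R, ∀ tr s, Good (next a) S (r, tr) → next a r tr = some s →
      s.length ≤ ℓ a := by
    intro r hr tr s hgood hnx
    have h3 := hℓn a r tr (hRm r hr) (hrun r (hRm r hr) tr hgood).1
    rw [hnx, sz_some] at h3
    have h7 := length_le_sz s
    omega
  obtain ⟨G, hG, hGpos, hGbad, hGR, hGnone⟩ := hcex a C S R hC hredT hqlen (by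
      intro Ls hLs' hmemL
      refine (hLs Ls hLs' fun s hs => ?_).trans (Nat.lt_succ_self _)
      obtain ⟨hsS, r, hr, tr, hgood, hnx⟩ := hmemL s hs
      exact ⟨hsS, r, tr, hRm r hr, hgood, hnx⟩) hRpos
  rw [hsrchdef]
  refine List.mem_flatMap.2 ⟨G, hG, ?_⟩
  classical
  refine LT.mem_isoAgree (hmd0 a) (fun i => (LT.wfun S T' (ℓ a) k (pr a)).getD i 0)
    (fun i => LT.abs_wfun_le _ _ _ _ _ i) (fun e => Good (next a) S e) ?_ hGpos ?_ huB
  · intro e he hg
    rw [hvtdef, hmddef]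
    dsimp only
    have hn := hGnone e he hg
    obtain ⟨h1, _, h3⟩ := hrun e.1 (hRm _ (hGR e he)) e.2 hg
    have h4 := hT e.1 e.2 (hRm _ (hGR e he)) hg hn
    have h5 := h3 hn
    rw [← hpar _ (hGR e he)] at h5
    have hszv := hℓv a e.1 e.2 (hRm _ (hGR e he)) h1
    refine LT.pairing_sign (lam := 2 * ℓ a + 1) (hprp a) hTcd ?_ ?_ _ h5
    · intro x hx
      have h6 := sz_mem_le hx
      rw [sz_prod] at h6
      have h7 : ∀ w ∈ x.2, w.length ≤ ℓ a := by
        intro w hw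
        have h7 := sz_mem_le hw
        have h8 := length_le_sz w
        omega
      rcases h4 x hx with ⟨h8, h9⟩ | ⟨h8, h9⟩
      · exact Or.inl (LT.mem_keysT.2 ⟨h8, fun w hw => ⟨h9 w hw, h7 w hw⟩⟩)
      · right
        refine ⟨h8, ⟨fun h => h9.2 (Finset.mem_filter.1 h).1, fun h => ?_⟩, ?_⟩
        · exact Finset.mem_filter.2 ⟨h9.1 h, by omega⟩
        · rw [LT.length_cd]
          omega
    · refine lt_of_le_of_lt ?_ (hprbig a)
      exact Nat.mul_le_mul_left _ (Nat.mul_le_mul ((length_le_sz _).trans hszv)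
        (Nat.mul_le_mul_right _ hT'Q))
  · refine le_trans (le_of_eq ?_) hGbad
    unfold bad
    rfl

end Pool.Agent.Lib.MP_634427_lc
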